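import Pool.Agent.Q328.GIG.Red

/-!
# The emptiness problem for global index grammars is undecidable

A number is kept in unary on the global stack.  A transition of a residue machine (replace
`s * t + s0` by `r * t + r0`) pops the number and writes `r * t + r0` copies of a nonterminal `D`
in front of the nonterminal for the next state; `D` then pushes an index (and writes a terminal).
The residue machine with an undecidable halting problem is `Pool.Agent.H109R3.CF.exists_tr`.
-/

set_option autoImplicit false

namespace Pool.Agent.Results.MP_c0e261_lc.EmptinessUndecidable

open Pool.Agent.Q328.GIG

/-- **Emptiness of global index grammars is undecidable**, even for grammars with one stack index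
and one terminal in which all productions but one are fixed, the remaining one being the
context-free production `S → Dⁿ E`. -/
theorem result :
    (¬ ComputablePred (fun G : Gram => lang G = ∅)) ∧
    ∃ (S D E : ℕ) (R : List Rule), (∀ ρ ∈ R, Simple ρ) ∧
      ¬ ComputablePred (fun n : ℕ =>
        lang (S, free S ((List.replicate n D ++ [E]).map Sum.inl) :: R) = ∅) :=
  ⟨undecidable, undecidable_fixed⟩

end Pool.Agent.Results.MP_c0e261_lc.EmptinessUndecidable
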